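import Pool.Agent.H5.BHG.Stmts3

/-!
# Board BHG, row PDD: lengths and outdegrees of the padded game
-/

set_option autoImplicit false

namespace Pool.BHG

open Filter TMLib Pool.PG

theorem pdd_thm : PDDStmt := by
  intro c g
  have hlen : (pad c g).length = (2 * c + 1) * g.length := by
    simp only [pad, List.length_append, List.length_map, List.length_range]
    ring
  refine ⟨hlen, fun v hv => ?_⟩
  have key : ∀ e ∈ pad c g, ∃ s : ℕ, ∀ x < c * g.length, x + s ∈ e.2 := by
    intro e he
    simp only [pad, List.mem_append, List.mem_map] at he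
    rcases he with (⟨a, ha, rfl⟩ | ⟨a, ha, rfl⟩) | ⟨a, ha, rfl⟩
    · exact ⟨_, fun x hx => List.mem_append_right _
        (List.mem_map.2 ⟨x, List.mem_range.2 hx, rfl⟩)⟩
    · exact ⟨_, fun x hx => List.mem_map.2 ⟨x, List.mem_range.2 hx, rfl⟩⟩
    · exact ⟨_, fun x hx => List.mem_map.2 ⟨x, List.mem_range.2 hx, rfl⟩⟩
  have hm : vx (pad c g) v ∈ pad c g := by
    unfold vx
    rw [List.getD_eq_getElem _ _ hv]
    exact List.getElem_mem hv
  obtain ⟨s, hs⟩ := key _ hm
  calc c * g.length = ((Finset.range (c * g.length)).image (fun x => x + s)).card := by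
        rw [Finset.card_image_of_injective _ (fun a b h => by simpa using h), Finset.card_range]
    _ ≤ (suc (pad c g) v).toFinset.card := Finset.card_le_card (by
        intro y hy
        obtain ⟨x, hx, rfl⟩ := Finset.mem_image.1 hy
        exact List.mem_toFinset.2 (hs x (Finset.mem_range.1 hx)))

end Pool.BHG
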